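import Mathlib

set_option autoImplicit false

namespace Pool.Agent.Results.MP_25f285_al.BoundedFunctional

open Filter Topology

/-- The word length of `g` with respect to `S`: the least length of a word in `S` with product
`g`. -/
noncomputable def wordLength {G : Type} [Group G] (S : Set G) (g : G) : ℕ :=
  sInf {n : ℕ | ∃ l : List G, l.length = n ∧ (∀ s ∈ l, s ∈ S) ∧ l.prod = g}

/-- `d` is an integer valued, left-invariant, proper metric on `G` that is quasi-isometric to a
Cayley metric. -/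
structure IsQuasiCayley (G : Type) [Group G] (d : G → G → ℤ) : Prop where
  eq_zero_iff : ∀ x y, d x y = 0 ↔ x = y
  symm : ∀ x y, d x y = d y x
  triangle : ∀ x y z, d x z ≤ d x y + d y z
  left_inv : ∀ g x y, d (g * x) (g * y) = d x y
  proper : ∀ (x : G) (r : ℤ), {y : G | d x y ≤ r}.Finite
  quasi : ∃ S : Set G, S.Finite ∧ (∀ s ∈ S, s⁻¹ ∈ S) ∧ Subgroup.closure S = ⊤ ∧
    ∃ C : ℝ, 1 ≤ C ∧ ∀ x y,
      C⁻¹ * (wordLength S (x⁻¹ * y) : ℝ) - C ≤ (d x y : ℝ) ∧
      (d x y : ℝ) ≤ C * (wordLength S (x⁻¹ * y) : ℝ) + C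

/-- `f` is a metric-functional in the boundary of `(G, d)`: a pointwise limit of the functions
`y ↦ d(x_n, y) - d(x_n, e)` along a sequence eventually leaving every finite set. -/
def IsMetricFunctional {G : Type} [Group G] (d : G → G → ℤ) (f : G → ℝ) : Prop :=
  ∃ x : ℕ → G, (∀ F : Set G, F.Finite → ∀ᶠ n in atTop, x n ∉ F) ∧
    ∀ y, Tendsto (fun n => ((d (x n) y : ℝ) - (d (x n) 1 : ℝ))) atTop (𝓝 (f y))

/-- the defining relation of the norm -/
def P (n : ℤ) (m : ℕ) : Prop := ∃ j : ℕ, 4 ^ j ≤ m ∧ n.natAbs * 2 ^ j + m ≤ m * 2 ^ (j + 1)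

/-- The norm on `ℤ`. -/
noncomputable def N (n : ℤ) : ℕ := sInf {m : ℕ | n = 0 ∨ P n m}

lemma P_self (n : ℤ) (hn : n ≠ 0) : P n n.natAbs := by
  have : 1 ≤ n.natAbs := Int.natAbs_pos.mpr hn
  exact ⟨0, by simpa using this, by omega⟩

lemma N_zero : N 0 = 0 := by
  have : (0 : ℕ) ∈ {m : ℕ | (0 : ℤ) = 0 ∨ P 0 m} := Or.inl rfl
  exact Nat.le_zero.mp (Nat.sInf_le this)

lemma N_spec (n : ℤ) (hn : n ≠ 0) : P n (N n) := by
  have : N n ∈ {m : ℕ | n = 0 ∨ P n m} := Nat.sInf_mem ⟨n.natAbs, Or.inr (P_self n hn)⟩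
  exact this.resolve_left hn

lemma N_le {n : ℤ} {m : ℕ} (h : P n m) : N n ≤ m := Nat.sInf_le (Or.inr h)

lemma P_le {n : ℤ} {m : ℕ} (h : P n m) : n.natAbs ≤ 2 * m := by
  obtain ⟨j, -, h⟩ := h
  have h1 : n.natAbs * 2 ^ j ≤ 2 * m * 2 ^ j := by
    rw [pow_succ] at h
    nlinarith
  exact Nat.le_of_mul_le_mul_right h1 (by positivity)

lemma le_two_N (n : ℤ) : n.natAbs ≤ 2 * N n := by
  by_cases hn : n = 0
  · subst hn; simp
  · exact P_le (N_spec n hn)

lemma N_le_abs (n : ℤ) : N n ≤ n.natAbs := by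
  by_cases hn : n = 0
  · subst hn; simp [N_zero]
  · exact N_le (P_self n hn)

lemma N_eq_zero (n : ℤ) : N n = 0 ↔ n = 0 := by
  constructor
  · intro h
    have := le_two_N n
    rw [h] at this
    omega
  · rintro rfl; exact N_zero

lemma P_neg (n : ℤ) (m : ℕ) : P (-n) m ↔ P n m := by
  simp [P]

lemma N_neg (n : ℤ) : N (-n) = N n := by
  unfold N
  congr 1
  ext m
  simp only [Set.mem_ofPred_eq, P_neg, neg_eq_zero]

lemma P_mono_index {a m j k : ℕ} (hjk : j ≤ k) (h : a * 2 ^ j + m ≤ m * 2 ^ (j + 1)) :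
    a * 2 ^ k + m ≤ m * 2 ^ (k + 1) := by
  obtain ⟨t, rfl⟩ := Nat.exists_eq_add_of_le hjk
  have h1 : (a * 2 ^ j + m) * 2 ^ t ≤ m * 2 ^ (j + 1) * 2 ^ t := Nat.mul_le_mul_right _ h
  have h2 : 1 ≤ 2 ^ t := Nat.one_le_two_pow
  have h3 : m ≤ m * 2 ^ t := Nat.le_mul_of_pos_right _ (by positivity)
  calc a * 2 ^ (j + t) + m ≤ (a * 2 ^ j + m) * 2 ^ t := by rw [pow_add]; nlinarith
    _ ≤ m * 2 ^ (j + 1) * 2 ^ t := h1
    _ = m * 2 ^ (j + t + 1) := by ring

lemma N_add (a b : ℤ) : N (a + b) ≤ N a + N b := by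
  by_cases ha : a = 0
  · subst ha; simp [N_zero]
  by_cases hb : b = 0
  · subst hb; simp [N_zero]
  obtain ⟨i, hi1, hi2⟩ := N_spec a ha
  obtain ⟨j, hj1, hj2⟩ := N_spec b hb
  apply N_le
  refine ⟨max i j, ?_, ?_⟩
  · rcases le_total i j with h | h
    · rw [max_eq_right h]; omega
    · rw [max_eq_left h]; omega
  · have h1 := P_mono_index (le_max_left i j) hi2
    have h2 := P_mono_index (le_max_right i j) hj2
    have h3 : (a + b).natAbs ≤ a.natAbs + b.natAbs := Int.natAbs_add_le a b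
    have h4 : (a + b).natAbs * 2 ^ (max i j) ≤ (a.natAbs + b.natAbs) * 2 ^ (max i j) :=
      Nat.mul_le_mul_right _ h3
    nlinarith

/-- the plateaus -/
lemma N_plateau (k : ℕ) (n : ℤ) (h1 : 8 * 4 ^ k - 4 * 2 ^ k ≤ n) (h2 : n ≤ 8 * 4 ^ k - 2 * 2 ^ k) :
    N n = 4 ^ (k + 1) := by
  have h4 : (4 : ℤ) ^ k = 2 ^ k * 2 ^ k := by rw [← mul_pow]; norm_num
  have hpos : (1 : ℤ) ≤ 2 ^ k := one_le_pow₀ (by norm_num)
  have hn : 0 < n := by nlinarith
  apply le_antisymm
  · apply N_le
    refine ⟨k + 1, le_rfl, ?_⟩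
    zify
    rw [abs_of_pos hn]
    have e1 : (4 : ℤ) ^ (k + 1) = 4 * (2 ^ k * 2 ^ k) := by rw [pow_succ, h4]; ring
    have e2 : (2 : ℤ) ^ (k + 1) = 2 * 2 ^ k := by ring
    have e3 : (2 : ℤ) ^ (k + 1 + 1) = 4 * 2 ^ k := by ring
    rw [e1, e2, e3]
    rw [h4] at h2
    nlinarith
  · by_contra hlt
    push Not at hlt
    obtain ⟨j, hj1, hj2⟩ := N_spec n hn.ne'
    have hjk : j ≤ k := by
      have : 4 ^ j < 4 ^ (k + 1) := lt_of_le_of_lt hj1 hlt
      have := (Nat.pow_lt_pow_iff_right (by norm_num : 1 < 4)).mp this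
      omega
    have h5 := P_mono_index hjk hj2
    have h6 : (n : ℤ) * 2 ^ k + N n ≤ N n * 2 ^ (k + 1) := by
      have h7 : ((n.natAbs * 2 ^ k + N n : ℕ) : ℤ) ≤ ((N n * 2 ^ (k + 1) : ℕ) : ℤ) := by
        exact_mod_cast h5
      push_cast at h7
      rwa [abs_of_pos hn] at h7
    have h8 : (N n : ℤ) + 1 ≤ 4 * (2 ^ k * 2 ^ k) := by
      have : ((N n : ℕ) : ℤ) < ((4 ^ (k + 1) : ℕ) : ℤ) := by exact_mod_cast hlt
      push_cast at this
      rw [pow_succ, h4] at this
      linarith
    rw [h4] at h1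
    rw [pow_succ] at h6
    set t : ℤ := 2 ^ k
    set M : ℤ := (N n : ℤ)
    -- n t ≤ M (2t - 1) ≤ (4 t^2 - 1)(2t-1), n ≥ 8 t^2 - 4 t
    have h9 : n * t ≤ M * (2 * t - 1) := by nlinarith
    have h10 : M * (2 * t - 1) ≤ (4 * (t * t) - 1) * (2 * t - 1) := by
      apply mul_le_mul_of_nonneg_right _ (by linarith)
      linarith
    have h11 : (8 * (t * t) - 4 * t) * t ≤ n * t := mul_le_mul_of_nonneg_right h1 (by linarith)
    nlinarith

/-- The metric on `Multiplicative ℤ`. -/
noncomputable def d (x y : Multiplicative ℤ) : ℤ :=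
  (N (Multiplicative.toAdd x - Multiplicative.toAdd y) : ℤ)

/-- The standard generating set. -/
def S : Set (Multiplicative ℤ) := {Multiplicative.ofAdd 1, Multiplicative.ofAdd (-1)}

lemma abs_prod_le (l : List (Multiplicative ℤ)) (hl : ∀ s ∈ l, s ∈ S) :
    (Multiplicative.toAdd l.prod).natAbs ≤ l.length := by
  induction l with
  | nil => simp
  | cons a l ih =>
    have h1 := ih (fun s hs => hl s (List.mem_cons_of_mem _ hs))
    have h2 : (Multiplicative.toAdd a).natAbs = 1 := by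
      rcases hl a List.mem_cons_self with h | h <;> rw [h] <;> rfl
    rw [List.prod_cons, toAdd_mul, List.length_cons]
    have := Int.natAbs_add_le (Multiplicative.toAdd a) (Multiplicative.toAdd l.prod)
    omega

lemma exists_word (n : ℤ) : ∃ l : List (Multiplicative ℤ), l.length = n.natAbs ∧
    (∀ s ∈ l, s ∈ S) ∧ l.prod = Multiplicative.ofAdd n := by
  rcases le_total 0 n with h | h
  · refine ⟨List.replicate n.natAbs (Multiplicative.ofAdd 1), by simp, ?_, ?_⟩
    · intro s hs; rw [List.eq_of_mem_replicate hs]; exact Or.inl rfl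
    · rw [List.prod_replicate, ← ofAdd_nsmul]
      congr 1; simp [abs_of_nonneg h]
  · refine ⟨List.replicate n.natAbs (Multiplicative.ofAdd (-1)), by simp, ?_, ?_⟩
    · intro s hs; rw [List.eq_of_mem_replicate hs]; exact Or.inr rfl
    · rw [List.prod_replicate, ← ofAdd_nsmul]
      congr 1; simp [abs_of_nonpos h]

lemma wordLength_eq (g : Multiplicative ℤ) :
    wordLength S g = (Multiplicative.toAdd g).natAbs := by
  apply le_antisymm
  · obtain ⟨l, h1, h2, h3⟩ := exists_word (Multiplicative.toAdd g)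
    exact Nat.sInf_le ⟨l, h1, h2, h3⟩
  · obtain ⟨l, h1, h2, h3⟩ := exists_word (Multiplicative.toAdd g)
    have hne : {n : ℕ | ∃ l : List (Multiplicative ℤ), l.length = n ∧ (∀ s ∈ l, s ∈ S) ∧
        l.prod = g}.Nonempty := ⟨_, l, h1, h2, h3⟩
    obtain ⟨l', h1', h2', h3'⟩ := Nat.sInf_mem hne
    have := abs_prod_le l' h2'
    rw [h3', h1'] at this
    exact this

lemma closure_S : Subgroup.closure S = ⊤ := by
  rw [eq_top_iff]
  intro g _
  obtain ⟨l, _, h2, h3⟩ := exists_word (Multiplicative.toAdd g)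
  have : g = l.prod := h3.symm
  rw [this]
  exact Subgroup.list_prod_mem _ (fun s hs => Subgroup.subset_closure (h2 s hs))

lemma isQuasiCayley : IsQuasiCayley (Multiplicative ℤ) d where
  eq_zero_iff x y := by
    unfold d
    rw [Nat.cast_eq_zero, N_eq_zero, sub_eq_zero]
    exact Multiplicative.toAdd.injective.eq_iff
  symm x y := by
    unfold d
    rw [← N_neg, neg_sub]
  triangle x y z := by
    unfold d
    have := N_add (Multiplicative.toAdd x - Multiplicative.toAdd y)
      (Multiplicative.toAdd y - Multiplicative.toAdd z)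
    rw [sub_add_sub_cancel] at this
    exact_mod_cast this
  left_inv g x y := by
    unfold d
    rw [toAdd_mul, toAdd_mul, add_sub_add_left_eq_sub]
  proper x r := by
    have : {y : Multiplicative ℤ | d x y ≤ r} ⊆
        Multiplicative.toAdd ⁻¹' (Set.Icc (Multiplicative.toAdd x - 2 * r)
          (Multiplicative.toAdd x + 2 * r)) := by
      intro y hy
      have h1 : d x y ≤ r := hy
      have h2 := le_two_N (Multiplicative.toAdd x - Multiplicative.toAdd y)
      unfold d at h1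
      simp only [Set.mem_preimage, Set.mem_Icc]
      omega
    refine Set.Finite.subset ?_ this
    exact (Set.finite_Icc _ _).preimage Multiplicative.toAdd.injective.injOn
  quasi := by
    refine ⟨S, ?_, ?_, closure_S, 2, by norm_num, ?_⟩
    · exact (Set.finite_singleton _).insert _
    · rintro s (h | h)
      · rw [h]; exact Or.inr rfl
      · rw [h]; exact Or.inl rfl
    · intro x y
      rw [wordLength_eq]
      have e : (Multiplicative.toAdd (x⁻¹ * y)).natAbs =
          (Multiplicative.toAdd x - Multiplicative.toAdd y).natAbs := by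
        rw [toAdd_mul, toAdd_inv]
        omega
      rw [e]
      unfold d
      have h1 := le_two_N (Multiplicative.toAdd x - Multiplicative.toAdd y)
      have h2 := N_le_abs (Multiplicative.toAdd x - Multiplicative.toAdd y)
      set u := (Multiplicative.toAdd x - Multiplicative.toAdd y).natAbs
      set v := N (Multiplicative.toAdd x - Multiplicative.toAdd y)
      have h1' : (u : ℝ) ≤ 2 * v := by exact_mod_cast h1
      have h2' : (v : ℝ) ≤ u := by exact_mod_cast h2
      have h3 : (0 : ℝ) ≤ u := by positivity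
      push_cast
      constructor <;> linarith

/-- The sequence of base points. -/
def x (k : ℕ) : Multiplicative ℤ := Multiplicative.ofAdd (8 * 4 ^ k - 3 * 2 ^ k)

lemma isMetricFunctional : IsMetricFunctional d (fun _ => 0) := by
  refine ⟨x, ?_, ?_⟩
  · have hinj : Function.Injective x := by
      have hmono : StrictMono (fun k : ℕ => (8 * 4 ^ k - 3 * 2 ^ k : ℤ)) := by
        apply strictMono_nat_of_lt_succ
        intro k
        have h4 : (4 : ℤ) ^ k = 2 ^ k * 2 ^ k := by rw [← mul_pow]; norm_num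
        have hpos : (1 : ℤ) ≤ 2 ^ k := one_le_pow₀ (by norm_num)
        rw [pow_succ, pow_succ, h4]
        nlinarith
      intro a b hab
      exact hmono.injective hab
    intro F hF
    have h := hinj.tendsto_cofinite
    rw [Nat.cofinite_eq_atTop] at h
    exact h.eventually hF.eventually_cofinite_notMem
  · intro y
    apply tendsto_const_nhds.congr'
    have hev : ∀ᶠ k : ℕ in atTop, (Multiplicative.toAdd y).natAbs ≤ k := eventually_ge_atTop _
    filter_upwards [hev] with k hk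
    have hk2 : (k : ℤ) < 2 ^ k := by exact_mod_cast Nat.lt_two_pow_self
    have h1 : d (x k) y = 4 ^ (k + 1) := by
      unfold d x
      rw [toAdd_ofAdd, N_plateau k _ (by omega) (by omega)]
      push_cast; rfl
    have h2 : d (x k) 1 = 4 ^ (k + 1) := by
      unfold d x
      rw [toAdd_ofAdd, toAdd_one, N_plateau k _ (by omega) (by omega)]
      push_cast; rfl
    rw [h1, h2, sub_self]

theorem result : ∃ (G : Type) (_ : Group G), Group.FG G ∧ ∃ d : G → G → ℤ, IsQuasiCayley G d ∧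
    ∃ f : G → ℝ, IsMetricFunctional d f ∧ ∃ B : ℝ, ∀ y, |f y| ≤ B := by
  refine ⟨Multiplicative ℤ, inferInstance, ?_, d, isQuasiCayley, fun _ => 0,
    isMetricFunctional, 0, by simp⟩
  rw [Group.fg_def, Subgroup.fg_iff]
  exact ⟨S, closure_S, (Set.finite_singleton _).insert _⟩

end Pool.Agent.Results.MP_25f285_al.BoundedFunctional
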